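import Pool.Agent.U642.QS.Gen
import Pool.Agent.U642.WP.Mono
import Pool.Agent.Y951.WP.Main

set_option autoImplicit false

/-! # Systems of diagonal equations, completion in the variables which occur -/

namespace Pool.Agent.U642.QS

open Finset Filter Polynomial
open Pool.Agent.U642.WP (comb)

section

variable {p : ℕ} [Fact p.Prime]

/-- Weil's bound with a linear twist -/
lemma weil_twist (G : (ZMod p)[X]) (hG : 2 ≤ G.natDegree) (hGp : G.natDegree < p) (h : ZMod p) :
    ‖∑ x : ZMod p, (ZMod.stdAddChar (G.eval x + h * x) : ℂ)‖ ≤ G.natDegree * Real.sqrt p := by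
  have hdeg : (G + C h * X).natDegree = G.natDegree := by
    rw [natDegree_add_eq_left_of_natDegree_lt]
    exact lt_of_le_of_lt ((natDegree_C_mul_le h X).trans natDegree_X_le) (by omega)
  have h1 := Pool.Agent.Y951.WP.weil_le p (G + C h * X) (by
    rw [hdeg]
    intro h
    have := Nat.le_of_dvd (by omega) h
    omega) (ZMod.isPrimitive_stdAddChar p)
  rw [hdeg] at h1
  have h2 : ∑ x : ZMod p, (ZMod.stdAddChar (G.eval x + h * x) : ℂ) =
      ∑ x : ZMod p, (ZMod.stdAddChar ((G + C h * X).eval x) : ℂ) := by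
    refine sum_congr rfl fun x _ => ?_
    rw [eval_add, eval_mul, eval_C, eval_X]
  rw [h2]
  refine h1.trans ?_
  apply mul_le_mul_of_nonneg_right _ (Real.sqrt_nonneg _)
  exact_mod_cast Nat.sub_le _ _

/-- sums of separated functions with a constant -/
lemma sep_gen {κ : Type} [Fintype κ] [DecidableEq κ] (φ : κ → ZMod p → ZMod p) (c : ZMod p) :
    ‖∑ x : κ → ZMod p, (ZMod.stdAddChar (∑ j, φ j (x j) + c) : ℂ)‖ =
      ∏ j, ‖∑ x : ZMod p, (ZMod.stdAddChar (φ j x) : ℂ)‖ := by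
  classical
  have h1 : ∑ x : κ → ZMod p, (ZMod.stdAddChar (∑ j, φ j (x j) + c) : ℂ) =
      (∏ j, ∑ x : ZMod p, (ZMod.stdAddChar (φ j x) : ℂ)) * (ZMod.stdAddChar c : ℂ) := by
    rw [Finset.prod_univ_sum, Fintype.piFinset_univ, sum_mul]
    refine sum_congr rfl fun x _ => ?_
    rw [AddChar.map_add_eq_mul, psi_sum']
  rw [h1, norm_mul, AddChar.norm_apply, mul_one, norm_prod]

/-- the partial sums of a separated function -/
lemma diag_sum {r : ℕ} (f : Fin r → ZMod p → ZMod p) (J : Finset (Fin r))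
    (c : {j // ¬ j ∈ J} → ZMod p) (h : {j // j ∈ J} → ZMod p) :
    ‖∑ u : {j // j ∈ J} → ZMod p, (ZMod.stdAddChar (∑ j, f j (glue J u c j)) : ℂ) *
      (ZMod.stdAddChar (∑ j, h j * u j) : ℂ)‖ =
      ∏ j : {j // j ∈ J}, ‖∑ x : ZMod p, (ZMod.stdAddChar (f j x + h j * x) : ℂ)‖ := by
  classical
  rw [← sep_gen (fun (j : {j // j ∈ J}) x => f j x + h j * x) (∑ j : {j // ¬ j ∈ J}, f j (c j))]
  congr 1
  refine sum_congr rfl fun u _ => ?_
  rw [← AddChar.map_add_eq_mul]
  congr 1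
  rw [sum_add_distrib]
  have h1 : ∑ j, f j (glue J u c j) = ∑ j : {j // j ∈ J}, f j (u j) +
      ∑ j : {j // ¬ j ∈ J}, f j (c j) := by
    rw [← Fintype.sum_subtype_add_sum_subtype (fun j => j ∈ J) (fun j => f j (glue J u c j))]
    congr 1
    · refine sum_congr (Finset.ext fun j => by simp) fun j _ => ?_
      unfold glue
      rw [dif_pos j.2]
    · refine sum_congr rfl fun j _ => ?_
      unfold glue
      rw [dif_neg j.2]
  rw [h1]
  ring

end

open scoped Classical in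
/-- **systems of diagonal equations modulo `p`** -/
theorem diag_main {ι : Type} (r m : ℕ) (F : ι → MvPolynomial (Fin r) ℤ)
    (hF : Pool.Agent.N542.PT.Crit r F) (δ : ℝ) (hδ : 0 < δ) (hδ1 : δ ≤ 1) :
    ∃ κ : ℝ, 0 < κ ∧ ∀ᶠ P : ℝ in atTop, ∀ (p : ℕ) [Fact p.Prime], (p : ℝ) = P →
    ∀ (g : Fin m → Fin r → (ZMod p)[X]) (a : Fin m → ZMod p) (M : Fin r → ℤ) (L : Fin r → ℕ),
    (∀ i j, ((g i j).natDegree : ℝ) ≤ (p : ℝ) ^ (δ / (4 * (r + 1)))) →
    (∀ j, (p : ℝ) ^ δ ≤ L j ∧ L j ≤ p) →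
    (∀ t : Fin m → ZMod p, t ≠ 0 →
      (p : ℝ) ^ (((univ.filter (fun j => 2 ≤ (comb g t j).natDegree)).card : ℝ) / 2 + m + δ) ≤
        ∏ j ∈ univ.filter (fun j => 2 ≤ (comb g t j).natDegree), (L j : ℝ)) →
    (∏ j, (L j : ℝ)) / (p : ℝ) ^ ((m : ℝ) + δ) ≤
      (((pts (fun x i => ∑ j, (g i j).eval (x j)) a (fun j => Ioc (M j) (M j + L j))).filter
        (fun x => Pool.Agent.N542.PT.Good F (κ * Pool.Agent.W147.PS.ff p) ((p : ℝ) ^ δ) x)).card : ℝ) := by
  obtain ⟨κ, hκ, h⟩ := gen_main r m F hF (δ / 2) (by positivity) (by linarith)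
  refine ⟨κ, hκ, ?_⟩
  filter_upwards [h, eventually_gt_atTop (1 : ℝ)] with P h g1
  intro p hp hpP g a M L hdeg hL hJ
  subst hpP
  have hp1 : (1 : ℝ) < p := g1
  have hp0 : (0 : ℝ) < p := by linarith
  have hmono : ∀ x y : ℝ, x ≤ y → (p : ℝ) ^ x ≤ (p : ℝ) ^ y := fun x y h =>
    Real.rpow_le_rpow_of_exponent_le hp1.le h
  have hr0 : (0 : ℝ) ≤ r := Nat.cast_nonneg _
  obtain ⟨τ, hτ⟩ : ∃ τ : ℝ, τ = δ / (4 * ((r : ℝ) + 1)) := ⟨_, rfl⟩
  have hτ0 : 0 < τ := by rw [hτ]; positivity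
  have hτr : τ * (r + 1) = δ / 4 := by rw [hτ]; field_simp
  have hτ1 : τ < 1 := by nlinarith
  rw [← hτ] at hdeg
  have key := h p rfl (fun x i => ∑ j, (g i j).eval (x j)) a M L
    (fun j => ⟨(hmono _ _ (by linarith)).trans (hL j).1, (hL j).2⟩) (by
    intro t ht
    obtain ⟨J, hJdef⟩ : ∃ J : Finset (Fin r), J = univ.filter (fun j => 2 ≤ (comb g t j).natDegree) :=
      ⟨_, rfl⟩
    have hmem : ∀ j ∈ J, 2 ≤ (comb g t j).natDegree := by
      rw [hJdef]
      intro j hj
      exact (mem_filter.mp hj).2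
    refine ⟨J, fun c hh => ?_⟩
    have hval : ∀ x : Fin r → ZMod p, ∑ i, t i * ∑ j, (g i j).eval (x j) =
        ∑ j, (comb g t j).eval (x j) := by
      intro x
      have e3 : ∀ j, (comb g t j).eval (x j) = ∑ i, t i * (g i j).eval (x j) := by
        intro j
        unfold Pool.Agent.U642.WP.comb
        rw [eval_finsetSum]
        refine sum_congr rfl fun i _ => ?_
        rw [eval_mul, eval_C]
      rw [sum_congr rfl fun j _ => e3 j, sum_comm]
      exact sum_congr rfl fun i _ => by rw [mul_sum]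
    simp only [hval]
    rw [diag_sum (fun j x => (comb g t j).eval x) J c hh]
    have hb : ∀ j : {j // j ∈ J}, ‖∑ x : ZMod p, (ZMod.stdAddChar
        ((comb g t j).eval x + hh j * x) : ℂ)‖ ≤ (p : ℝ) ^ τ * (p : ℝ) ^ (1 / 2 : ℝ) := by
      intro j
      have hj : 2 ≤ (comb g t j).natDegree := hmem j j.2
      have hd : ((comb g t j).natDegree : ℝ) ≤ (p : ℝ) ^ τ := by
        have h1 : (comb g t j).natDegree ≤ univ.sup (fun i => (g i j).natDegree) := by
          unfold Pool.Agent.U642.WP.comb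
          apply natDegree_sum_le_of_forall_le
          intro i _
          refine (natDegree_C_mul_le _ _).trans ?_
          exact Finset.le_sup (f := fun i => (g i j).natDegree) (mem_univ i)
        have h2 : ∃ i, (comb g t j).natDegree ≤ (g i j).natDegree := by
          by_contra hcon
          push Not at hcon
          have h3 : univ.sup (fun i => (g i j).natDegree) < (comb g t j).natDegree := by
            rw [Finset.sup_lt_iff (by rw [Nat.bot_eq_zero]; omega)]
            intro i _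
            exact hcon i
          omega
        obtain ⟨i, hi⟩ := h2
        have h3 : ((comb g t j).natDegree : ℝ) ≤ ((g i j).natDegree : ℝ) := by exact_mod_cast hi
        exact h3.trans (hdeg i j)
      have hdp : (comb g t j).natDegree < p := by
        have h1 : (p : ℝ) ^ τ < p := by
          calc (p : ℝ) ^ τ < (p : ℝ) ^ (1 : ℝ) := Real.rpow_lt_rpow_of_exponent_lt hp1 hτ1
            _ = p := Real.rpow_one _
        have : ((comb g t j).natDegree : ℝ) < p := lt_of_le_of_lt hd h1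
        exact_mod_cast this
      refine (weil_twist _ hj hdp (hh j)).trans ?_
      rw [← Real.sqrt_eq_rpow]
      exact mul_le_mul_of_nonneg_right hd (Real.sqrt_nonneg _)
    refine (prod_le_prod (fun j _ => norm_nonneg _) (fun j _ => hb j)).trans ?_
    rw [prod_const, card_univ, Fintype.card_coe]
    have hJr : (J.card : ℝ) ≤ r := by
      have := card_le_card (subset_univ J)
      rw [card_univ, Fintype.card_fin] at this
      exact_mod_cast this
    have h1 : ((p : ℝ) ^ τ * (p : ℝ) ^ (1 / 2 : ℝ)) ^ J.card ≤ (p : ℝ) ^ ((J.card : ℝ) / 2 + δ / 4) := by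
      rw [← Real.rpow_add hp0, ← Real.rpow_natCast, ← Real.rpow_mul hp0.le]
      apply hmono
      nlinarith
    have h2 := hJ t ht
    rw [← hJdef] at h2
    refine h1.trans ?_
    calc (p : ℝ) ^ ((J.card : ℝ) / 2 + δ / 4) ≤ (p : ℝ) ^ ((J.card : ℝ) / 2 + δ / 2) :=
          hmono _ _ (by linarith)
      _ = (p : ℝ) ^ ((J.card : ℝ) / 2 + m + δ) * (p : ℝ) ^ (-((m : ℝ) + δ / 2)) := by
          rw [← Real.rpow_add hp0]
          congr 1
          ring
      _ ≤ _ := mul_le_mul_of_nonneg_right h2 (by positivity))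
  have hV0 : 0 ≤ ∏ j, (L j : ℝ) := prod_nonneg fun j _ => Nat.cast_nonneg _
  refine le_trans ?_ (key.trans ?_)
  · have h1 : (p : ℝ) ^ ((m : ℝ) + δ / 2) ≤ (p : ℝ) ^ ((m : ℝ) + δ) := hmono _ _ (by linarith)
    have h2 : 0 < (p : ℝ) ^ ((m : ℝ) + δ / 2) := Real.rpow_pos_of_pos hp0 _
    exact div_le_div_of_nonneg_left hV0 h2 h1
  · rw [Nat.cast_le]
    apply card_le_card
    intro x hx
    rw [mem_filter] at hx ⊢
    refine ⟨hx.1, fun j n hn => ?_⟩
    obtain ⟨l, hl, hl2, hl3⟩ := hx.2 j n hn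
    exact ⟨l, hl, hl2.trans (hmono _ _ (by linarith)), hl3⟩

end Pool.Agent.U642.QS
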