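import Mathlib

set_option autoImplicit false

/-! # Nonsingular principal minors of symmetric matrices -/

namespace Pool.Agent.U642.QS

open Finset Matrix

/-- a symmetric matrix of rank `ρ` has a nonsingular principal minor of size `ρ` -/
theorem exists_minor {K : Type} [Field K] {r : ℕ} (B : Matrix (Fin r) (Fin r) K)
    (hB : B.IsSymm) : ∃ J : Finset (Fin r), J.card = B.rank ∧
      (B.submatrix (fun j : {j // j ∈ J} => (j : Fin r)) (fun j : {j // j ∈ J} => (j : Fin r))).det ≠ 0 := by
  classical
  obtain ⟨κ, a, ha, hspan, hind⟩ := exists_linearIndependent' K B.row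
  have : Finite κ := Finite.of_injective a ha
  have : Fintype κ := Fintype.ofFinite κ
  have hsym : ∀ i j, B i j = B j i := fun i j => (hB.apply i j).symm
  obtain ⟨J, hJ⟩ : ∃ J : Finset (Fin r), J = univ.image a := ⟨_, rfl⟩
  have hcard : J.card = B.rank := by
    rw [hJ, card_image_of_injective _ ha, card_univ, Matrix.rank_eq_finrank_span_row, ← hspan,
      finrank_span_eq_card hind]
  refine ⟨J, hcard, ?_⟩
  intro hdet
  obtain ⟨v, hv0, hv⟩ := Matrix.exists_vecMul_eq_zero_iff.mpr hdet
  apply hv0
  -- the row relation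
  have haJ : ∀ k, a k ∈ J := fun k => by rw [hJ]; exact mem_image_of_mem _ (mem_univ _)
  have key : ∑ k : κ, v ⟨a k, haJ k⟩ • (B.row ∘ a) k = 0 := by
    funext j
    -- the row `j` is a combination of the rows of `J`
    have h1 : B.row j ∈ Submodule.span K (Set.range (B.row ∘ a)) := by
      rw [hspan]
      exact Submodule.subset_span ⟨j, rfl⟩
    rw [Submodule.mem_span_range_iff_exists_fun] at h1
    obtain ⟨c, hc⟩ := h1
    have h2 : ∀ k, B j (a k) = ∑ l, c l * B (a l) (a k) := by
      intro k
      have := congrFun hc (a k)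
      rw [Finset.sum_apply] at this
      rw [show B.row j (a k) = B j (a k) from rfl] at this
      rw [← this]
      rfl
    have h3 : ∀ l, ∑ k, v ⟨a k, haJ k⟩ * B (a k) (a l) = 0 := by
      intro l
      have h4 := congrFun hv ⟨a l, haJ l⟩
      rw [Matrix.vecMul, dotProduct] at h4
      simp only [submatrix_apply, Pi.zero_apply] at h4
      rw [← h4]
      refine sum_bij (fun k _ => (⟨a k, haJ k⟩ : {j // j ∈ J})) ?_ ?_ ?_ ?_
      · intro k _
        exact mem_univ _
      · intro k _ k' _ hkk
        exact ha (congrArg Subtype.val hkk)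
      · rintro ⟨b, hb⟩ _
        have hb' := hb
        rw [hJ, mem_image] at hb'
        obtain ⟨k, -, hk⟩ := hb'
        exact ⟨k, mem_univ _, Subtype.ext hk⟩
      · intro k _
        rfl
    rw [Finset.sum_apply, Pi.zero_apply]
    calc ∑ k, (v ⟨a k, haJ k⟩ • (B.row ∘ a) k) j = ∑ k, v ⟨a k, haJ k⟩ * B j (a k) := by
          refine sum_congr rfl fun k _ => ?_
          rw [hsym j (a k)]
          rfl
      _ = ∑ k, ∑ l, v ⟨a k, haJ k⟩ * (c l * B (a l) (a k)) := by
          refine sum_congr rfl fun k _ => ?_
          rw [h2 k, mul_sum]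
      _ = ∑ l, c l * ∑ k, v ⟨a k, haJ k⟩ * B (a k) (a l) := by
          rw [sum_comm]
          refine sum_congr rfl fun l _ => ?_
          rw [mul_sum]
          refine sum_congr rfl fun k _ => ?_
          rw [hsym (a l) (a k)]
          ring
      _ = 0 := by
          apply sum_eq_zero
          intro l _
          rw [h3 l, mul_zero]
  have h5 := Fintype.linearIndependent_iff.mp hind _ key
  funext ⟨b, hb⟩
  have hb' := hb
  rw [hJ, mem_image] at hb'
  obtain ⟨k, -, rfl⟩ := hb'
  exact h5 k

end Pool.Agent.U642.QS
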