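import Pool.Agent.U642.QS.Gen
import Pool.Agent.U642.QS.Minor
import Pool.Agent.U642.WP.Mono

set_option autoImplicit false

/-! # Quadratic systems -/

namespace Pool.Agent.U642.QS

open Finset Filter Matrix

section

variable {p : ℕ} [Fact p.Prime]

/-- Gauss sums of nonsingular quadratic functions -/
lemma gauss {κ : Type} [Fintype κ] [DecidableEq κ] (φ φ₀ : (κ → ZMod p) → ZMod p)
    (B : Matrix κ κ (ZMod p)) (hB : B.det ≠ 0)
    (hφ : ∀ y z, φ (y + z) - φ y = φ₀ z + ∑ j, y j * (B *ᵥ z) j) :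
    ‖∑ y : κ → ZMod p, (ZMod.stdAddChar (φ y) : ℂ)‖ ^ 2 = (p : ℝ) ^ Fintype.card κ := by
  classical
  set S := ∑ y : κ → ZMod p, (ZMod.stdAddChar (φ y) : ℂ) with hS
  have hconj : ∀ x : ZMod p, (starRingEnd ℂ) (ZMod.stdAddChar x : ℂ) = ZMod.stdAddChar (-x) := by
    intro x
    rw [AddChar.map_neg_eq_conj]
  have h1 : S * (starRingEnd ℂ) S = (p : ℂ) ^ Fintype.card κ := by
    have e1 : S * (starRingEnd ℂ) S = ∑ y : κ → ZMod p, ∑ z : κ → ZMod p,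
        (ZMod.stdAddChar (φ (y + z) - φ y) : ℂ) := by
      rw [hS, map_sum, mul_comm, sum_mul]
      refine sum_congr rfl fun y _ => ?_
      rw [mul_sum]
      rw [← Equiv.sum_comp (Equiv.addLeft y)]
      refine sum_congr rfl fun z _ => ?_
      rw [hconj, ← AddChar.map_add_eq_mul]
      congr 1
      rw [Equiv.coe_addLeft]
      ring
    rw [e1, sum_comm]
    have e2 : ∀ z : κ → ZMod p, ∑ y : κ → ZMod p, (ZMod.stdAddChar (φ (y + z) - φ y) : ℂ) =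
        if z = 0 then (p : ℂ) ^ Fintype.card κ else 0 := by
      intro z
      have e3 : ∀ y : κ → ZMod p, (ZMod.stdAddChar (φ (y + z) - φ y) : ℂ) =
          (ZMod.stdAddChar (φ₀ z) : ℂ) * (ZMod.stdAddChar (∑ j, y j * (B *ᵥ z) j) : ℂ) := by
        intro y
        rw [hφ, AddChar.map_add_eq_mul]
      rw [sum_congr rfl fun y _ => e3 y, ← mul_sum, orth' (B *ᵥ z)]
      by_cases hz : z = 0
      · rw [if_pos hz, if_pos (by rw [hz, Matrix.mulVec_zero])]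
        have h0 := hφ 0 0
        simp only [add_zero, sub_self, Matrix.mulVec_zero, Pi.zero_apply, mul_zero,
          sum_const_zero] at h0
        rw [hz, ← h0, AddChar.map_zero_eq_one, one_mul]
      · rw [if_neg hz, if_neg, mul_zero]
        intro h
        exact hB (Matrix.exists_mulVec_eq_zero_iff.mp ⟨z, hz, h⟩)
    rw [sum_congr rfl fun z _ => e2 z, sum_ite_eq' univ (0 : κ → ZMod p), if_pos (mem_univ _)]
  rw [Complex.mul_conj, Complex.normSq_eq_norm_sq] at h1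
  exact_mod_cast h1

/-- extension by zero -/
def ext0 {r : ℕ} (J : Finset (Fin r)) (z : {j // j ∈ J} → ZMod p) (j : Fin r) : ZMod p :=
  if h : j ∈ J then z ⟨j, h⟩ else 0

lemma ext0_dot {r : ℕ} (J : Finset (Fin r)) (z : {j // j ∈ J} → ZMod p) (w : Fin r → ZMod p) :
    ext0 J z ⬝ᵥ w = ∑ j : {j // j ∈ J}, z j * w j := by
  classical
  unfold dotProduct
  rw [← Finset.sum_subset (subset_univ J)]
  · rw [← Finset.sum_coe_sort]
    refine sum_congr rfl fun j _ => ?_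
    unfold ext0
    rw [dif_pos j.2]
  · intro j _ hj
    unfold ext0
    rw [dif_neg hj, zero_mul]

lemma glue_add {r : ℕ} (J : Finset (Fin r)) (y z : {j // j ∈ J} → ZMod p)
    (c : {j // ¬ j ∈ J} → ZMod p) : glue J (y + z) c = glue J y c + ext0 J z := by
  funext j
  unfold glue ext0
  rw [Pi.add_apply]
  split_ifs with h
  · rfl
  · rw [add_zero]

lemma glue_split {r : ℕ} (J : Finset (Fin r)) (y : {j // j ∈ J} → ZMod p)
    (c : {j // ¬ j ∈ J} → ZMod p) : glue J y c = glue J 0 c + ext0 J y := by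
  rw [← glue_add, zero_add]

/-- the partial sums of a quadratic function -/
lemma quad_sum {r : ℕ} (A : Matrix (Fin r) (Fin r) (ZMod p)) (b : Fin r → ZMod p)
    (J : Finset (Fin r))
    (hJ : ((A + Aᵀ).submatrix (fun j : {j // j ∈ J} => (j : Fin r))
      (fun j : {j // j ∈ J} => (j : Fin r))).det ≠ 0)
    (c : {j // ¬ j ∈ J} → ZMod p) (h : {j // j ∈ J} → ZMod p) :
    ‖∑ u : {j // j ∈ J} → ZMod p,
      (ZMod.stdAddChar (glue J u c ⬝ᵥ A *ᵥ (glue J u c) + b ⬝ᵥ glue J u c) : ℂ) *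
      (ZMod.stdAddChar (∑ j, h j * u j) : ℂ)‖ ≤ (p : ℝ) ^ ((J.card : ℝ) / 2) := by
  classical
  have hp0 : (0 : ℝ) < p := by exact_mod_cast (Fact.out : p.Prime).pos
  obtain ⟨B, hBdef⟩ : ∃ B : Matrix {j // j ∈ J} {j // j ∈ J} (ZMod p),
    B = (A + Aᵀ).submatrix (fun j : {j // j ∈ J} => (j : Fin r))
      (fun j : {j // j ∈ J} => (j : Fin r)) := ⟨_, rfl⟩
  rw [← hBdef] at hJ
  have key := gauss
    (fun u => (glue J u c ⬝ᵥ A *ᵥ (glue J u c) + b ⬝ᵥ glue J u c) + ∑ j, h j * u j)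
    (fun z => ext0 J z ⬝ᵥ A *ᵥ (glue J 0 c) + (glue J 0 c) ⬝ᵥ A *ᵥ (ext0 J z) +
      ext0 J z ⬝ᵥ A *ᵥ (ext0 J z) + b ⬝ᵥ ext0 J z + ∑ j, h j * z j) B hJ (by
    intro y z
    rw [glue_add, glue_split J y c]
    have e1 : ∑ j : {j // j ∈ J}, y j * (B *ᵥ z) j = ext0 J y ⬝ᵥ (A + Aᵀ) *ᵥ (ext0 J z) := by
      rw [ext0_dot]
      refine sum_congr rfl fun j _ => ?_
      congr 1
      rw [Matrix.mulVec, Matrix.mulVec, dotProduct_comm, dotProduct_comm _ (ext0 J z), ext0_dot, hBdef]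
      rfl
    have e2 : ext0 J y ⬝ᵥ (A + Aᵀ) *ᵥ (ext0 J z) =
        ext0 J y ⬝ᵥ A *ᵥ (ext0 J z) + ext0 J z ⬝ᵥ A *ᵥ (ext0 J y) := by
      rw [Matrix.add_mulVec, dotProduct_add]
      congr 1
      rw [Matrix.mulVec_transpose, dotProduct_comm, Matrix.dotProduct_mulVec]
    have e3 : ∑ j, h j * (y + z) j = ∑ j, h j * y j + ∑ j, h j * z j := by
      rw [← sum_add_distrib]
      exact sum_congr rfl fun j _ => by rw [Pi.add_apply, mul_add]
    rw [e1, e2, e3]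
    simp only [Matrix.mulVec_add, dotProduct_add, add_dotProduct]
    ring)
  have hcongr : ∑ u : {j // j ∈ J} → ZMod p,
      (ZMod.stdAddChar (glue J u c ⬝ᵥ A *ᵥ (glue J u c) + b ⬝ᵥ glue J u c) : ℂ) *
      (ZMod.stdAddChar (∑ j, h j * u j) : ℂ) =
      ∑ u : {j // j ∈ J} → ZMod p, (ZMod.stdAddChar
        ((glue J u c ⬝ᵥ A *ᵥ (glue J u c) + b ⬝ᵥ glue J u c) + ∑ j, h j * u j) : ℂ) :=
    sum_congr rfl fun u _ => (AddChar.map_add_eq_mul _ _ _).symm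
  rw [hcongr]
  rw [Fintype.card_coe] at key
  have h2 : (p : ℝ) ^ ((J.card : ℝ) / 2) = Real.sqrt ((p : ℝ) ^ J.card) := by
    rw [Real.sqrt_eq_rpow, ← Real.rpow_natCast, ← Real.rpow_mul hp0.le]
    congr 1
    ring
  rw [h2]
  apply Real.le_sqrt_of_sq_le
  exact key.le

end

open scoped Classical in
/-- **systems of quadratic equations modulo `p`** -/
theorem quad_main {ι : Type} (r m : ℕ) (F : ι → MvPolynomial (Fin r) ℤ)
    (hF : Pool.Agent.N542.PT.Crit r F) (δ : ℝ) (hδ : 0 < δ) (hδ1 : δ ≤ 1) :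
    ∃ κ : ℝ, 0 < κ ∧ ∀ᶠ P : ℝ in atTop, ∀ (p : ℕ) [Fact p.Prime], (p : ℝ) = P →
    ∀ (ρ : ℕ) (Q : Fin m → Matrix (Fin r) (Fin r) (ZMod p)) (b : Fin m → Fin r → ZMod p)
      (a : Fin m → ZMod p) (M : Fin r → ℤ) (L : Fin r → ℕ),
    (∀ t : Fin m → ZMod p, t ≠ 0 → ρ ≤ (∑ i, t i • (Q i + (Q i)ᵀ)).rank) →
    (∀ j, (p : ℝ) ^ δ ≤ L j ∧ L j ≤ p) →
    (∀ J : Finset (Fin r), ρ ≤ J.card → (p : ℝ) ^ ((J.card : ℝ) / 2 + m + δ) ≤ ∏ j ∈ J, (L j : ℝ)) →
    (∏ j, (L j : ℝ)) / (p : ℝ) ^ ((m : ℝ) + δ) ≤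
      (((pts (fun x i => x ⬝ᵥ Q i *ᵥ x + b i ⬝ᵥ x) a (fun j => Ioc (M j) (M j + L j))).filter
        (fun x => Pool.Agent.N542.PT.Good F (κ * Pool.Agent.W147.PS.ff p) ((p : ℝ) ^ δ) x)).card : ℝ) := by
  obtain ⟨κ, hκ, h⟩ := gen_main r m F hF δ hδ hδ1
  refine ⟨κ, hκ, ?_⟩
  filter_upwards [h, eventually_gt_atTop (1 : ℝ)] with P h g1
  intro p hp hpP ρ Q b a M L hrank hL hJ
  subst hpP
  have hp0 : (0 : ℝ) < p := by linarith
  refine h p rfl _ a M L hL ?_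
  intro t ht
  have hsymm : (∑ i, t i • (Q i + (Q i)ᵀ)).IsSymm := by
    unfold Matrix.IsSymm
    rw [Matrix.transpose_sum]
    refine sum_congr rfl fun i _ => ?_
    rw [Matrix.transpose_smul, Matrix.transpose_add, Matrix.transpose_transpose, add_comm]
  obtain ⟨J, hJc, hJdet⟩ := exists_minor _ hsymm
  refine ⟨J, fun c h => ?_⟩
  obtain ⟨A, hA⟩ : ∃ A : Matrix (Fin r) (Fin r) (ZMod p), A = ∑ i, t i • Q i := ⟨_, rfl⟩
  obtain ⟨β, hβ⟩ : ∃ β : Fin r → ZMod p, β = ∑ i, t i • b i := ⟨_, rfl⟩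
  have hAA : ∑ i, t i • (Q i + (Q i)ᵀ) = A + Aᵀ := by
    rw [hA, Matrix.transpose_sum, ← sum_add_distrib]
    refine sum_congr rfl fun i _ => ?_
    rw [Matrix.transpose_smul, smul_add]
  rw [hAA] at hJdet
  have hval : ∀ x : Fin r → ZMod p, ∑ i, t i * (x ⬝ᵥ Q i *ᵥ x + b i ⬝ᵥ x) =
      x ⬝ᵥ A *ᵥ x + β ⬝ᵥ x := by
    intro x
    have e1 : A *ᵥ x = ∑ i, t i • (Q i *ᵥ x) := by
      rw [hA, Matrix.sum_mulVec]
      exact sum_congr rfl fun i _ => Matrix.smul_mulVec _ _ _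
    rw [e1, hβ, dotProduct_sum, sum_dotProduct, ← sum_add_distrib]
    refine sum_congr rfl fun i _ => ?_
    rw [dotProduct_smul, smul_dotProduct, smul_eq_mul, smul_eq_mul, mul_add]
  simp only [hval]
  refine (quad_sum A β J hJdet c h).trans ?_
  have h1 := hJ J (by rw [hJc]; exact hrank t ht)
  have h2 : (p : ℝ) ^ ((J.card : ℝ) / 2) = (p : ℝ) ^ ((J.card : ℝ) / 2 + m + δ) *
      (p : ℝ) ^ (-((m : ℝ) + δ)) := by
    rw [← Real.rpow_add hp0]
    congr 1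
    ring
  rw [h2]
  exact mul_le_mul_of_nonneg_right h1 (by positivity)

end Pool.Agent.U642.QS
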