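import Pool.Agent.N647.FG.AP

set_option autoImplicit false

/-! # Sums over boxes with a completion in some of the variables -/

namespace Pool.Agent.U642.QS

open Finset
open Pool.Agent.N647.FG (F W)

variable {p : ℕ} [Fact p.Prime]

lemma psi_sum' {α : Type} (s : Finset α) (f : α → ZMod p) :
    (ZMod.stdAddChar (∑ i ∈ s, f i) : ℂ) = ∏ i ∈ s, (ZMod.stdAddChar (f i) : ℂ) := by
  classical
  induction s using Finset.induction_on with
  | empty => simp
  | insert a s ha ih => rw [sum_insert ha, prod_insert ha, AddChar.map_add_eq_mul, ih]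

/-- orthogonality of the characters of `F_p ^ κ` -/
lemma orth' {κ : Type} [Fintype κ] [DecidableEq κ] (v : κ → ZMod p) :
    ∑ t : κ → ZMod p, (ZMod.stdAddChar (∑ i, t i * v i) : ℂ) =
      if v = 0 then (p : ℂ) ^ Fintype.card κ else 0 := by
  classical
  have h1 : ∀ t : κ → ZMod p, (ZMod.stdAddChar (∑ i, t i * v i) : ℂ) =
      ∏ i, (ZMod.stdAddChar (t i * v i) : ℂ) := fun t => psi_sum' _ _
  rw [sum_congr rfl fun t _ => h1 t]
  have h2 := Finset.prod_univ_sum (fun _ : κ => (univ : Finset (ZMod p)))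
    (fun i x => (ZMod.stdAddChar (x * v i) : ℂ))
  rw [Fintype.piFinset_univ] at h2
  rw [← h2]
  have h3 : ∀ i, ∑ x : ZMod p, (ZMod.stdAddChar (x * v i) : ℂ) = if v i = 0 then (p : ℂ) else 0 := by
    intro i
    have := AddChar.sum_mulShift (v i) (ZMod.isPrimitive_stdAddChar p)
    rw [this, ZMod.card]
    split_ifs <;> simp
  rw [prod_congr rfl fun i _ => h3 i]
  by_cases hv : v = 0
  · rw [if_pos hv, hv]
    simp
  · rw [if_neg hv]
    obtain ⟨i, hi⟩ : ∃ i, v i ≠ 0 := by
      by_contra hcon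
      push Not at hcon
      exact hv (funext hcon)
    apply prod_eq_zero (mem_univ i)
    rw [if_neg hi]

/-- completion in all the variables -/
lemma compl_all {κ : Type} [Fintype κ] [DecidableEq κ] (f : (κ → ZMod p) → ℂ) (B : ℝ)
    (hB : ∀ h : κ → ZMod p, ‖∑ u : κ → ZMod p, f u * (ZMod.stdAddChar (∑ j, h j * u j) : ℂ)‖ ≤ B)
    (A : κ → Finset ℤ) :
    ‖∑ z ∈ Fintype.piFinset A, f (fun j => ((z j : ℤ) : ZMod p))‖ ≤ B * ∏ j, W p (A j) := by
  classical
  have hp0 : (0 : ℝ) < p := by exact_mod_cast (Fact.out : p.Prime).pos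
  have hpC : (p : ℂ) ≠ 0 := by exact_mod_cast (Fact.out : p.Prime).ne_zero
  -- Fourier inversion
  have hinv : ∀ u : κ → ZMod p, f u = (1 / (p : ℂ)) ^ Fintype.card κ *
      ∑ h : κ → ZMod p, (∑ v : κ → ZMod p, f v * (ZMod.stdAddChar (∑ j, h j * v j) : ℂ)) *
        (ZMod.stdAddChar (-∑ j, h j * u j) : ℂ) := by
    intro u
    have h1 : ∑ h : κ → ZMod p, (∑ v : κ → ZMod p, f v * (ZMod.stdAddChar (∑ j, h j * v j) : ℂ)) *
        (ZMod.stdAddChar (-∑ j, h j * u j) : ℂ) =
        ∑ v : κ → ZMod p, f v * ∑ h : κ → ZMod p,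
          (ZMod.stdAddChar (∑ j, h j * (v j - u j)) : ℂ) := by
      rw [sum_congr rfl fun h _ => sum_mul _ _ _, sum_comm]
      refine sum_congr rfl fun v _ => ?_
      rw [mul_sum]
      refine sum_congr rfl fun h _ => ?_
      rw [mul_assoc, ← AddChar.map_add_eq_mul]
      congr 2
      rw [← sub_eq_add_neg, ← sum_sub_distrib]
      exact sum_congr rfl fun j _ => by ring
    rw [h1]
    have h2 : ∀ v : κ → ZMod p, f v * ∑ h : κ → ZMod p,
          (ZMod.stdAddChar (∑ j, h j * (v j - u j)) : ℂ) =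
        if v = u then f u * (p : ℂ) ^ Fintype.card κ else 0 := by
      intro v
      rw [orth' (fun j => v j - u j)]
      by_cases hv : v = u
      · rw [if_pos hv, if_pos (by funext j; rw [hv]; simp), hv]
      · rw [if_neg hv, if_neg, mul_zero]
        intro h3
        exact hv (funext fun j => sub_eq_zero.mp (congrFun h3 j))
    rw [sum_congr rfl fun v _ => h2 v, sum_ite_eq' univ u, if_pos (mem_univ _)]
    rw [one_div, inv_pow]
    field_simp
  rw [sum_congr rfl fun z _ => hinv _, ← mul_sum, sum_comm]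
  have h3 : ∀ h : κ → ZMod p, ∑ z ∈ Fintype.piFinset A,
      (∑ v : κ → ZMod p, f v * (ZMod.stdAddChar (∑ j, h j * v j) : ℂ)) *
        (ZMod.stdAddChar (-∑ j, h j * ((z j : ℤ) : ZMod p)) : ℂ) =
      (∑ v : κ → ZMod p, f v * (ZMod.stdAddChar (∑ j, h j * v j) : ℂ)) *
        ∏ j, F (A j) (h j) := by
    intro h
    rw [← mul_sum]
    congr 1
    unfold F
    rw [Finset.prod_univ_sum]
    refine sum_congr rfl fun z _ => ?_
    rw [← psi_sum', sum_neg_distrib]
  rw [sum_congr rfl fun h _ => h3 h, norm_mul, norm_pow, norm_div, norm_one, Complex.norm_natCast]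
  have h4 : ∏ j, W p (A j) = (1 / (p : ℝ)) ^ Fintype.card κ * ∑ h : κ → ZMod p, ∏ j, ‖F (A j) (h j)‖ := by
    unfold W
    rw [prod_mul_distrib, prod_const, card_univ]
    congr 1
    rw [Finset.prod_univ_sum, Fintype.piFinset_univ]
  rw [h4, ← mul_assoc, mul_comm B, mul_assoc]
  apply mul_le_mul_of_nonneg_left _ (by positivity)
  rw [mul_sum]
  refine (norm_sum_le _ _).trans (sum_le_sum fun h _ => ?_)
  rw [norm_mul, norm_prod]
  exact mul_le_mul_of_nonneg_right (hB h) (prod_nonneg fun j _ => norm_nonneg _)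

/-- the vector which is `u` on `J` and `c` outside of `J` -/
def glue {X : Type} {r : ℕ} (J : Finset (Fin r)) (u : {j // j ∈ J} → X) (c : {j // ¬ j ∈ J} → X)
    (j : Fin r) : X := if h : j ∈ J then u ⟨j, h⟩ else c ⟨j, h⟩

/-- **sums over boxes** with a completion in the variables of `J` -/
theorem box_sum {r : ℕ} (J : Finset (Fin r)) (A : Fin r → Finset ℤ)
    (Φ : (Fin r → ZMod p) → ℂ) (B : ℝ)
    (hB : ∀ (c : {j // ¬ j ∈ J} → ZMod p) (h : {j // j ∈ J} → ZMod p),
      ‖∑ u : {j // j ∈ J} → ZMod p, Φ (glue J u c) *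
        (ZMod.stdAddChar (∑ j, h j * u j) : ℂ)‖ ≤ B) :
    ‖∑ x ∈ Fintype.piFinset A, Φ (fun j => ((x j : ℤ) : ZMod p))‖ ≤
      B * (∏ j ∈ J, W p (A j)) * ∏ j ∈ univ \ J, ((A j).card : ℝ) := by
  classical
  have h1 : ∑ x ∈ Fintype.piFinset A, Φ (fun j => ((x j : ℤ) : ZMod p)) =
      ∑ y ∈ Fintype.piFinset (fun j : {j // ¬ j ∈ J} => A j),
      ∑ z ∈ Fintype.piFinset (fun j : {j // j ∈ J} => A j),
        Φ (glue J (fun j => ((z j : ℤ) : ZMod p)) (fun j => ((y j : ℤ) : ZMod p))) := by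
    rw [sum_comm, ← sum_product']
    refine sum_equiv (Equiv.piEquivPiSubtypeProd (· ∈ J) (fun _ => ℤ)) ?_ ?_
    · intro x
      rw [mem_product, Fintype.mem_piFinset, Fintype.mem_piFinset, Fintype.mem_piFinset]
      constructor
      · intro h
        exact ⟨fun j => h j, fun j => h j⟩
      · rintro ⟨h1, h2⟩ j
        by_cases hj : j ∈ J
        · exact h1 ⟨j, hj⟩
        · exact h2 ⟨j, hj⟩
    · intro x _
      congr 1
      funext j
      unfold glue
      by_cases hj : j ∈ J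
      · rw [dif_pos hj]
        rfl
      · rw [dif_neg hj]
        rfl
  rw [h1]
  have h2 : ∀ y ∈ Fintype.piFinset (fun j : {j // ¬ j ∈ J} => A j),
      ‖∑ z ∈ Fintype.piFinset (fun j : {j // j ∈ J} => A j),
        Φ (glue J (fun j => ((z j : ℤ) : ZMod p)) (fun j => ((y j : ℤ) : ZMod p)))‖ ≤
      B * ∏ j : {j // j ∈ J}, W p (A j) := by
    intro y _
    exact compl_all (fun u => Φ (glue J u (fun j => ((y j : ℤ) : ZMod p)))) B (fun h => hB _ h) _
  refine (norm_sum_le _ _).trans ((sum_le_sum h2).trans (le_of_eq ?_))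
  rw [sum_const, nsmul_eq_mul, Fintype.card_piFinset, mul_comm]
  push_cast
  congr 1
  · congr 1
    exact prod_coe_sort J (fun j => W p (A j))
  · have h3 : ∏ j ∈ univ \ J, ((A j).card : ℝ) = ∏ j : {j // j ∈ univ \ J}, ((A j).card : ℝ) :=
      (prod_coe_sort (univ \ J) (fun j => ((A j).card : ℝ))).symm
    rw [h3]
    refine Fintype.prod_equiv (Equiv.subtypeEquivRight fun j => by simp) _ _ fun j => rfl

end Pool.Agent.U642.QS
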