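import Pool.Agent.U642.QS.Diag
import Pool.Agent.H442R2.KF.Weil

set_option autoImplicit false

/-! # Systems of congruences with reciprocals -/

namespace Pool.Agent.U642.QS

open Finset Filter
open Pool.Agent.W147.PS (ff ev_pow)

section

variable {p : ℕ} [Fact p.Prime]

/-- Weil's bound for Kloosterman sums -/
lemma kl_bound (c w : ZMod p) (hc : c ≠ 0) :
    ‖∑ x : ZMod p, (ZMod.stdAddChar (c * x⁻¹ + w * x) : ℂ)‖ ≤ 3 * Real.sqrt p := by
  classical
  have hp : p.Prime := Fact.out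
  have h1 := Pool.Agent.H442R2.KF.weil_sf p hp.squarefree w c (isUnit_iff_ne_zero.2 hc)
  rw [hp.primeFactors, card_singleton, pow_one] at h1
  have h2 : ∑ x : ZMod p, (ZMod.stdAddChar (c * x⁻¹ + w * x) : ℂ) =
      1 + ∑ u : (ZMod p)ˣ, (ZMod.stdAddChar (w * (u : ZMod p) +
        c * ((u⁻¹ : (ZMod p)ˣ) : ZMod p)) : ℂ) := by
    rw [← add_sum_erase univ _ (mem_univ (0 : ZMod p))]
    congr 1
    · simp
    · symm
      refine sum_bij (fun (u : (ZMod p)ˣ) _ => (u : ZMod p)) ?_ ?_ ?_ ?_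
      · intro u _
        exact mem_erase.2 ⟨u.ne_zero, mem_univ _⟩
      · intro u _ v _ h
        exact Units.ext h
      · intro x hx
        exact ⟨Units.mk0 x (ne_of_mem_erase hx), mem_univ _, rfl⟩
      · intro u _
        congr 1
        rw [Units.val_inv_eq_inv_val]
        ring
  rw [h2]
  refine (norm_add_le _ _).trans ?_
  rw [norm_one]
  have h3 : 1 ≤ Real.sqrt p := by
    rw [Real.one_le_sqrt]
    exact_mod_cast hp.one_lt.le
  linarith

end

/-- the value of a system with reciprocals -/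
def rec_map {p m r : ℕ} [Fact p.Prime] (c d : Fin m → Fin r → ZMod p) (x : Fin r → ZMod p)
    (i : Fin m) : ZMod p := ∑ j, (c i j * (x j)⁻¹ + d i j * x j)

/-- the complete sums of a system with reciprocals -/
lemma rec_sum {p m r : ℕ} [Fact p.Prime] (c d : Fin m → Fin r → ZMod p) (t : Fin m → ZMod p)
    (J : Finset (Fin r)) (hJ : ∀ j ∈ J, ∑ i, t i * c i j ≠ 0)
    (e : {j // ¬ j ∈ J} → ZMod p) (h : {j // j ∈ J} → ZMod p) :
    ‖∑ u : {j // j ∈ J} → ZMod p, (ZMod.stdAddChar (∑ i, t i * rec_map c d (glue J u e) i) : ℂ) *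
      (ZMod.stdAddChar (∑ j, h j * u j) : ℂ)‖ ≤ (3 * Real.sqrt p) ^ J.card := by
  classical
  have hval : ∀ x : Fin r → ZMod p, ∑ i, t i * rec_map c d x i =
      ∑ j, ((∑ i, t i * c i j) * (x j)⁻¹ + (∑ i, t i * d i j) * x j) := by
    intro x
    unfold rec_map
    rw [sum_congr rfl fun i _ => mul_sum _ _ _, sum_comm]
    refine sum_congr rfl fun j _ => ?_
    rw [sum_mul, sum_mul, ← sum_add_distrib]
    exact sum_congr rfl fun i _ => by ring
  simp only [hval]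
  rw [diag_sum (fun j x => (∑ i, t i * c i j) * x⁻¹ + (∑ i, t i * d i j) * x) J e h]
  have hb : ∀ j : {j // j ∈ J}, ‖∑ x : ZMod p, (ZMod.stdAddChar
      ((∑ i, t i * c i j) * x⁻¹ + (∑ i, t i * d i j) * x + h j * x) : ℂ)‖ ≤ 3 * Real.sqrt p := by
    intro j
    have h1 := kl_bound (∑ i, t i * c i j) (∑ i, t i * d i j + h j) (hJ j j.2)
    refine le_trans (le_of_eq ?_) h1
    congr 1
    refine sum_congr rfl fun x _ => ?_
    congr 1
    ring
  refine (prod_le_prod (fun j _ => norm_nonneg _) (fun j _ => hb j)).trans ?_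
  rw [prod_const, card_univ, Fintype.card_coe]

open scoped Classical in
/-- **systems of congruences with reciprocals** -/
theorem rec_main {ι : Type} (r m : ℕ) (F : ι → MvPolynomial (Fin r) ℤ)
    (hF : Pool.Agent.N542.PT.Crit r F) (δ : ℝ) (hδ : 0 < δ) (hδ1 : δ ≤ 1) :
    ∃ κ : ℝ, 0 < κ ∧ ∀ᶠ P : ℝ in atTop, ∀ (p : ℕ) [Fact p.Prime], (p : ℝ) = P →
    ∀ (c d : Fin m → Fin r → ZMod p) (a : Fin m → ZMod p) (M : Fin r → ℤ) (L : Fin r → ℕ),
    (∀ j, (p : ℝ) ^ δ ≤ L j ∧ L j ≤ p) →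
    (∀ t : Fin m → ZMod p, t ≠ 0 →
      (p : ℝ) ^ (((univ.filter (fun j => ∑ i, t i * c i j ≠ 0)).card : ℝ) / 2 + m + δ) ≤
        ∏ j ∈ univ.filter (fun j => ∑ i, t i * c i j ≠ 0), (L j : ℝ)) →
    (∏ j, (L j : ℝ)) / (p : ℝ) ^ ((m : ℝ) + δ) ≤
      (((pts (rec_map c d) a (fun j => Ioc (M j) (M j + L j))).filter
        (fun x => Pool.Agent.N542.PT.Good F (κ * ff p) ((p : ℝ) ^ δ) x)).card : ℝ) := by
  obtain ⟨κ, hκ, h⟩ := gen_main r m F hF (δ / 2) (by positivity) (by linarith)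
  refine ⟨κ, hκ, ?_⟩
  filter_upwards [h, eventually_gt_atTop (1 : ℝ), ev_pow 0 (δ / 2) (3 ^ r) (by positivity)]
    with P h g1 g2
  intro p hp hpP c d a M L hL hJ
  subst hpP
  have hp1 : (1 : ℝ) < p := g1
  have hp0 : (0 : ℝ) < p := by linarith
  rw [Real.rpow_zero, mul_one] at g2
  have hmono : ∀ x y : ℝ, x ≤ y → (p : ℝ) ^ x ≤ (p : ℝ) ^ y := fun x y h =>
    Real.rpow_le_rpow_of_exponent_le hp1.le h
  have key := h p rfl (rec_map c d) a M L
    (fun j => ⟨(hmono _ _ (by linarith)).trans (hL j).1, (hL j).2⟩) (by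
    intro t ht
    obtain ⟨J, hJdef⟩ : ∃ J : Finset (Fin r), J = univ.filter (fun j => ∑ i, t i * c i j ≠ 0) :=
      ⟨_, rfl⟩
    refine ⟨J, fun e hh => ?_⟩
    refine (rec_sum c d t J (by
      rw [hJdef]
      intro j hj
      exact (mem_filter.mp hj).2) e hh).trans ?_
    have h2 := hJ t ht
    rw [← hJdef] at h2
    have hJr : J.card ≤ r := by
      have := card_le_card (subset_univ J)
      rwa [card_univ, Fintype.card_fin] at this
    have h3 : (3 : ℝ) ^ J.card ≤ 3 ^ r := pow_le_pow_right₀ (by norm_num) hJr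
    calc (3 * Real.sqrt p) ^ J.card = 3 ^ J.card * (p : ℝ) ^ ((J.card : ℝ) / 2) := by
          rw [mul_pow, Real.sqrt_eq_rpow, ← Real.rpow_natCast ((p : ℝ) ^ (1 / 2 : ℝ)),
            ← Real.rpow_mul hp0.le]
          congr 2
          ring
      _ ≤ (p : ℝ) ^ (δ / 2) * (p : ℝ) ^ ((J.card : ℝ) / 2) := by
          apply mul_le_mul_of_nonneg_right (h3.trans g2) (by positivity)
      _ = (p : ℝ) ^ ((J.card : ℝ) / 2 + m + δ) * (p : ℝ) ^ (-((m : ℝ) + δ / 2)) := by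
          rw [← Real.rpow_add hp0, ← Real.rpow_add hp0]
          congr 1
          ring
      _ ≤ _ := mul_le_mul_of_nonneg_right h2 (by positivity))
  have hV0 : 0 ≤ ∏ j, (L j : ℝ) := prod_nonneg fun j _ => Nat.cast_nonneg _
  refine le_trans ?_ (key.trans ?_)
  · have h1 : (p : ℝ) ^ ((m : ℝ) + δ / 2) ≤ (p : ℝ) ^ ((m : ℝ) + δ) := hmono _ _ (by linarith)
    have h2 : 0 < (p : ℝ) ^ ((m : ℝ) + δ / 2) := Real.rpow_pos_of_pos hp0 _
    exact div_le_div_of_nonneg_left hV0 h2 h1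
  · rw [Nat.cast_le]
    apply card_le_card
    intro x hx
    rw [mem_filter] at hx ⊢
    refine ⟨hx.1, fun j n hn => ?_⟩
    obtain ⟨l, hl, hl2, hl3⟩ := hx.2 j n hn
    exact ⟨l, hl, hl2.trans (hmono _ _ (by linarith)), hl3⟩

end Pool.Agent.U642.QS
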